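import Mathlib

/-!
# A small kernel-friendly unit propagation checker for statements about orientations

A literal is a number `256 * u + v` and stands for the arc `u → v`; a clause is a list of literals,
at least one of which is true.
-/

namespace Pool.Agent.R897.KG

/-- a heap-indexed tree of clauses; `w` is extra data used to check the axioms -/
inductive Tr where
  | nil : Tr
  | node (c : List ℕ) (w : ℕ) (l r : Tr) : Tr

/-- look up the entry with index `i` -/
def Tr.get : Tr → ℕ → List ℕ × ℕ
  | .nil, _ => ([], 0)
  | .node c w l r, i =>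
    match i with
    | 0 => (c, w)
    | (j+1) =>
      match Nat.beq (Nat.mod j 2) 0 with
      | true => l.get (Nat.div j 2)
      | false => r.get (Nat.div j 2)

/-- the reversed arc -/
def rev (l : ℕ) : ℕ := Nat.add (Nat.mul 256 (Nat.mod l 256)) (Nat.div l 256)

/-- membership test -/
def mem : ℕ → List ℕ → Bool
  | _, [] => false
  | x, y :: ys =>
    match Nat.beq x y with
    | true => true
    | false => mem x ys

/-- remove the literals whose reversal is known to be true -/
def red (A : List ℕ) : List ℕ → List ℕ
  | [] => []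
  | l :: c =>
    match mem (rev l) A with
    | true => red A c
    | false => l :: red A c

/-- unit propagation along hints, all of which are below `lo` -/
def rup (t : Tr) (lo : ℕ) : List ℕ → List ℕ → Bool
  | [], _ => false
  | h :: hs, A =>
    match Nat.blt h lo with
    | false => false
    | true =>
      match red A (t.get h).1 with
      | [] => true
      | [l] => rup t lo hs (l :: A)
      | _ :: _ :: _ => false

/-- a clause holds -/
def Valid (P : ℕ → Prop) (c : List ℕ) : Prop := ∃ l ∈ c, P l

theorem mem_sound {x : ℕ} : ∀ {A : List ℕ}, mem x A = true → x ∈ A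
  | [], h => by simp [mem] at h
  | y :: ys, h => by
    rw [mem] at h
    cases hb : Nat.beq x y with
    | true => rw [Nat.eq_of_beq_eq_true hb]; exact List.mem_cons_self
    | false =>
      simp only [hb] at h
      exact List.mem_cons_of_mem _ (mem_sound h)

theorem red_valid (P : ℕ → Prop) (hP : ∀ l, P l → ¬ P (rev l)) (A : List ℕ)
    (hA : ∀ l ∈ A, P l) : ∀ c : List ℕ, Valid P c → Valid P (red A c)
  | [], h => by obtain ⟨l, hl, -⟩ := h; simp at hl
  | l :: c, h => by
    obtain ⟨l', hl', hp⟩ := h
    rw [red]
    cases hm : mem (rev l) A with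
    | true =>
      simp only
      rcases List.mem_cons.1 hl' with rfl | hl'
      · exact absurd (hA _ (mem_sound hm)) (hP _ hp)
      · exact red_valid P hP A hA c ⟨l', hl', hp⟩
    | false =>
      simp only
      rcases List.mem_cons.1 hl' with rfl | hl'
      · exact ⟨l', List.mem_cons_self, hp⟩
      · obtain ⟨l'', h1, h2⟩ := red_valid P hP A hA c ⟨l', hl', hp⟩
        exact ⟨l'', List.mem_cons_of_mem _ h1, h2⟩

theorem rup_sound (P : ℕ → Prop) (hP : ∀ l, P l → ¬ P (rev l)) (t : Tr) (lo : ℕ)
    (ht : ∀ i < lo, Valid P (t.get i).1) :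
    ∀ (hs A : List ℕ), (∀ l ∈ A, P l) → rup t lo hs A = true → False
  | [], A, _, h => by simp [rup] at h
  | h :: hs, A, hA, hr => by
    rw [rup] at hr
    cases hlo : Nat.blt h lo with
    | false => simp [hlo] at hr
    | true =>
      simp only [hlo] at hr
      have hlo' : h < lo := by rwa [Nat.blt_eq] at hlo
      have hv := red_valid P hP A hA _ (ht h hlo')
      generalize red A (t.get h).1 = c at hv hr
      match c, hv, hr with
      | [], hv, _ => obtain ⟨l, hl, -⟩ := hv; simp at hl
      | [l], hv, hr =>
        obtain ⟨l', hl', hp⟩ := hv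
        rw [List.mem_singleton] at hl'
        subst hl'
        refine rup_sound P hP t lo ht hs (l' :: A) ?_ hr
        intro x hx
        rcases List.mem_cons.1 hx with rfl | hx
        · exact hp
        · exact hA x hx
      | _ :: _ :: _, _, hr => simp at hr

/-- all literals of the clause are edges (according to the test `E`) -/
def allE (E : ℕ → Bool) : List ℕ → Bool
  | [] => true
  | l :: c =>
    match E l with
    | true => allE E c
    | false => false

/-- the reversed literals -/
def revs : List ℕ → List ℕ
  | [] => []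
  | l :: c => rev l :: revs c

theorem revs_spec (P : ℕ → Prop) (E : ℕ → Bool) (hE : ∀ l, E l = true → ¬ P l → P (rev l)) :
    ∀ c : List ℕ, allE E c = true → ¬ Valid P c → ∀ l ∈ revs c, P l
  | [], _, _, l, hl => by simp [revs] at hl
  | x :: c, h, hv, l, hl => by
    rw [allE] at h
    cases hx : E x with
    | false => simp [hx] at h
    | true =>
      simp only [hx] at h
      rw [revs] at hl
      rcases List.mem_cons.1 hl with rfl | hl
      · exact hE x hx fun hp => hv ⟨x, List.mem_cons_self, hp⟩
      · refine revs_spec P E hE c h (fun ⟨y, hy, hp⟩ => hv ⟨y, List.mem_cons_of_mem _ hy, hp⟩) l hl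

/-- check that the clauses `lo, lo + 1, …` follow from the previous ones -/
def chk (E : ℕ → Bool) (t : Tr) : ℕ → List (List ℕ) → Bool
  | _, [] => true
  | lo, hs :: rest =>
    match allE E (t.get lo).1 with
    | false => false
    | true =>
      match rup t lo hs (revs (t.get lo).1) with
      | false => false
      | true => chk E t (Nat.succ lo) rest

theorem chk_sound (P : ℕ → Prop) (hP : ∀ l, P l → ¬ P (rev l)) (E : ℕ → Bool)
    (hE : ∀ l, E l = true → ¬ P l → P (rev l)) (t : Tr) :
    ∀ (l : List (List ℕ)) (lo : ℕ), chk E t lo l = true → (∀ i < lo, Valid P (t.get i).1) →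
      ∀ i < lo + l.length, Valid P (t.get i).1
  | [], lo, _, hv => by simpa using hv
  | hs :: rest, lo, h, hv => by
    intro i hi
    rw [chk] at h
    cases ha : allE E (t.get lo).1 with
    | false => simp [ha] at h
    | true =>
      simp only [ha] at h
      cases hr : rup t lo hs (revs (t.get lo).1) with
      | false => simp [hr] at h
      | true =>
        simp only [hr] at h
        refine chk_sound P hP E hE t rest (Nat.succ lo) h ?_ i
          (by simp only [List.length_cons] at hi; omega)
        intro j hj
        rcases Nat.lt_succ_iff_lt_or_eq.1 hj with hj | hj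
        · exact hv j hj
        · subst hj
          by_contra hcon
          exact rup_sound P hP t j hv hs _ (revs_spec P E hE _ ha hcon) hr

/-- check the axioms with indices `i, …, i + n - 1` with the test `ax` -/
def chkAx (ax : List ℕ → ℕ → Bool) (t : Tr) : ℕ → ℕ → Bool
  | 0, _ => true
  | n + 1, i =>
    match ax (t.get i).1 (t.get i).2 with
    | true => chkAx ax t n (Nat.succ i)
    | false => false

theorem chkAx_sound (ax : List ℕ → ℕ → Bool) (t : Tr) :
    ∀ (n i : ℕ), chkAx ax t n i = true → ∀ j, i ≤ j → j < i + n →
      ax (t.get j).1 (t.get j).2 = true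
  | 0, i, _, j, h1, h2 => by omega
  | n + 1, i, h, j, h1, h2 => by
    rw [chkAx] at h
    cases ha : ax (t.get i).1 (t.get i).2 with
    | false => simp [ha] at h
    | true =>
      simp only [ha] at h
      rcases Nat.eq_or_lt_of_le h1 with h3 | h3
      · rw [← h3]; exact ha
      · exact chkAx_sound ax t n (Nat.succ i) h j h3 (by omega)

/-! ## The 5-cycles of the Kneser graph -/

/-- number of ones among the lowest eight binary digits -/
def pc (m : ℕ) : ℕ :=
  Nat.add (Nat.mod m 2) (Nat.add (Nat.mod (Nat.div m 2) 2) (Nat.add (Nat.mod (Nat.div m 4) 2)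
    (Nat.add (Nat.mod (Nat.div m 8) 2) (Nat.add (Nat.mod (Nat.div m 16) 2)
      (Nat.add (Nat.mod (Nat.div m 32) 2) (Nat.add (Nat.mod (Nat.div m 64) 2)
        (Nat.mod (Nat.div m 128) 2)))))))

/-- `m` is a bit mask of a 3-element subset of an 8-element set -/
def vok (m : ℕ) : Bool := Nat.blt m 256 && Nat.beq (pc m) 3

/-- disjointness -/
def dis (a b : ℕ) : Bool := Nat.beq (Nat.land a b) 0

/-- the arc `l` joins adjacent vertices -/
def edge (l : ℕ) : Bool :=
  vok (Nat.div l 256) && vok (Nat.mod l 256) && dis (Nat.div l 256) (Nat.mod l 256)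

/-- `a, b, c, d, e` is a 5-cycle -/
def cyc5 (a b c d e : ℕ) : Bool :=
  vok a && vok b && vok c && vok d && vok e && dis a b && dis b c && dis c d && dis d e &&
    dis e a && !Nat.beq a c && !Nat.beq b d && !Nat.beq c e && !Nat.beq d a && !Nat.beq e b

/-- The axiom clauses: `[b → a, c → b, d → c]` for a 5-cycle `a, b, c, d, w`,
`[b → a, c → b, c → d, d → e]` and `[a → b, b → c, d → c, e → d]` for a 5-cycle `a, b, c, d, e`. -/
def ax : List ℕ → ℕ → Bool
  | [l1, l2, l3], w =>
    Nat.beq (Nat.div l1 256) (Nat.mod l2 256) && Nat.beq (Nat.div l2 256) (Nat.mod l3 256) &&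
      cyc5 (Nat.mod l1 256) (Nat.div l1 256) (Nat.div l2 256) (Nat.div l3 256) w
  | [l1, l2, l3, l4], w =>
    match w with
    | 0 =>
      Nat.beq (Nat.div l1 256) (Nat.mod l2 256) && Nat.beq (Nat.div l2 256) (Nat.div l3 256) &&
        Nat.beq (Nat.mod l3 256) (Nat.div l4 256) &&
        cyc5 (Nat.mod l1 256) (Nat.div l1 256) (Nat.div l2 256) (Nat.mod l3 256) (Nat.mod l4 256)
    | _ + 1 =>
      Nat.beq (Nat.mod l1 256) (Nat.div l2 256) && Nat.beq (Nat.mod l2 256) (Nat.mod l3 256) &&
        Nat.beq (Nat.div l3 256) (Nat.mod l4 256) &&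
        cyc5 (Nat.div l1 256) (Nat.div l2 256) (Nat.mod l2 256) (Nat.div l3 256) (Nat.div l4 256)
  | _, _ => false

end Pool.Agent.R897.KG
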